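import Pool.Agent.X211.CAS.Fin
import Pool.Agent.X211.CAS.Exa

/-!
# MP_3f01e7_al: the properties (T1) and (T2) of continuous association schemes

All spaces are second countable, locally compact and Hausdorff, with their Borel sets.

* There is a continuous association scheme with (T1) and without (T2): `X = D` is the group of the
  affine maps `t ↦ e^b t + a` of the line (with the law `(b, a) (b', a') = (b + b', a + e^b a')`),
  `K_h(x, ·)` is the point mass at `x h` and `π (x, y) = x⁻¹ y`.  For this scheme the identity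
  `T_f = T^{f ∘ π}` fails for every measure `ω_X` as in property 4 and every measure `ω_D` on `D`.
* There is no commutative one: a commutative continuous association scheme (`X` not empty) with
  (T1) has (T2); moreover for every `ω_X` as in property 4 there is a Haar measure `ω_D` with
  `T_f = T^{f ∘ π}` for all `f`.

Proof of the second part.  Let `ν_x` be the image of `ω_X` under `π_x`.  By (T1) and property 4 the
translations `F ↦ F_h` and `F ↦ F_{inv h}` are adjoint for `ν_x`, and `ν_x` is invariant, so it is
a Haar measure.  An application of Fubini's theorem shows that all the `ν_x` are proportional,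
`ν_x = c(x) ν`, and invariant under the involution.  The identity
`∫ F(π(x,y)) (∫ T_{inv h} g(y) f(h) dν(h)) dω(y) = ∫ F(h) (∫ g(y) f(h * inv π(x,y)) dω(y)) dν(h)`
gives `T^{f ∘ π} g (x) = c(x) T_f g (x)` for `F → δ_e`.  As `∫ f M_g dω = ∫ g M_f dω` for
`M_g(x) = ∫ T_h g (x) dν(h) = ω(g) / c(x)`, the function `c` is constant.
-/

namespace Pool.Agent.Results.MP_3f01e7_al.TranslationVersusKernel

open MeasureTheory Pool.Agent.X211.Sch

universe u v

theorem result :
    (∃ S : CAS (ℝ × ℝ) (ℝ × ℝ), S.T1 ∧ ¬ S.T2 ∧
      ∀ ωX ωD : Measure (ℝ × ℝ), S.Adj ωX → ¬ S.T2For ωX ωD) ∧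
    ∀ (X : Type u) (D : Type v)
      [TopologicalSpace X] [MeasurableSpace X] [BorelSpace X]
      [SecondCountableTopology X] [LocallyCompactSpace X] [T2Space X] [Nonempty X]
      [TopologicalSpace D] [MeasurableSpace D] [BorelSpace D]
      [SecondCountableTopology D] [LocallyCompactSpace D] [T2Space D]
      (S : CAS X D), S.Comm → S.T1 →
        S.T2 ∧ ∀ ωX, S.Adj ωX → ∃ ωD, S.H.IsLeftHaar ωD ∧ S.T2For ωX ωD :=
  ⟨⟨SG, SG_T1, SG_not_T2, fun _ _ h => SG_not_T2For h⟩,
    fun _ _ _ _ _ _ _ _ _ _ _ _ _ _ _ _ hc h1 => T2_of_T1 hc h1⟩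

end Pool.Agent.Results.MP_3f01e7_al.TranslationVersusKernel
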